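import Pool.Agent.H899.ER.Geo
import Pool.Agent.H899.RA.Cls

/-!
# The relative nef cone and the relative effective cone
-/

set_option autoImplicit false
set_option maxHeartbeats 400000

namespace Pool.Agent.H899.RA

open Filter Topology
open Pool.Agent.H899.ER hiding semiample_cls effective_cls
open Pool.Agent.W594.SYZ2 (IsHermitian)
open Pool.Agent.R895 (Lat BlBundle act kum N1 N1s IsEis IsClass std frm kap Nf Dat IsExt exH exH_herm
  exH_int co mem_co frm_add frm_smul frm_sub frm_zero form_frm N1_ext' kap_ne re_natMul frm_herm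
  std_dat std_herm std_int std_pos std_nonneg one_le_std le_std xi exists_ker)
open Pool.Agent.Y167 (AffGrp cone CData Pol Cp cone_ind cone_add cone_smul cone_sum cone_le
  mem_cone_self mem_cone_of_sum zero_mem_cone cone_mono)
open Pool.Agent.T6.H34.EK (QBundle PresLat grp NS NSs res IsCls c0 c0_pos c0_real avg avg_dat avg_inv
  avg_re avg_of_inv Inv std_le_avg re_twice)

theorem inv_comb' {r : ℕ} {K : Subgroup ((Fin r → ℂ) ≃ₗ[ℂ] (Fin r → ℂ))}
    {h h' : (Fin r → ℂ) → (Fin r → ℂ) → ℂ} (hi : Inv K h) (hi' : Inv K h') (a b : ℂ) :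
    Inv K fun u w => a * h u w + b * h' u w := fun g hg u w => by
  dsimp only
  rw [hi g hg, hi' g hg]

variable {n r : ℕ} {G : Subgroup ((Fin n → ℂ) ≃ₗ[ℂ] (Fin n → ℂ))} {hG : PresLat G}
  {j : (Fin r → ℂ) →ₗ[ℂ] (Fin n → ℂ)} {ρ : Fin r → Fin n}
  {K : Subgroup ((Fin r → ℂ) ≃ₗ[ℂ] (Fin r → ℂ))} {h : (Fin r → ℂ) → (Fin r → ℂ) → ℂ}
  [Fintype G] [Fintype K] [Nonempty (Fin n)]

/-- An integral class in the cone `NfR` is nef. -/
theorem nef_of_int (hn : OkR r) (hK : PresLat K) (hR : Restr G j K)
    (hj : IsExt ρ j) (hρ : Function.Injective ρ)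
    {a : NR (grp G hG) j} (ha : a ∈ LR hG j) (haN : a ∈ NfR hG j) :
    a ∈ nefCone (grp G hG) j := by
  obtain ⟨y₀, -, hy1, hy2⟩ := exists_y₀ hG hK hR hj hρ
  obtain ⟨D, k, hk⟩ := dat_of_LR hj ha
  obtain ⟨b, hb⟩ := coef_nat haN hk
  refine mem_closed (y := y₀) isClosed_closure fun k => subset_closure ?_
  set N : ℕ := k + 1 with hN
  have hKr : ((N : ℕ) : ℝ) = (k : ℝ) + 1 := by rw [hN]; push_cast; rfl
  have hK0 : (0 : ℝ) < N := by rw [hKr]; positivity
  have hcc := cr_real (G := G)
  have hc1 := one_le_cr (G := G)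
  have D' : Dat fun u w => (N : ℂ) * frm (up a) u w + ((2 * cr G : ℕ) : ℂ) * avg K std u w :=
    (D.natMul N).add ((avg_dat hK std_dat).natMul (2 * cr G))
  have hi' : Inv K fun u w => (N : ℂ) * frm (up a) u w + ((2 * cr G : ℕ) : ℂ) * avg K std u w :=
    inv_comb' (frm_inv hR a) (avg_inv std) _ _
  have hre : ∀ v, ((N : ℂ) * frm (up a) v v + ((2 * cr G : ℕ) : ℂ) * avg K std v v).re =
      N * (frm (up a) v v).re + 2 * cr G * (avg K std v v).re := by
    intro v
    rw [Complex.add_re, re_natMul, re_natMul]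
    push_cast
    ring
  have hsa : (cr G : ℝ) • ((N : ℝ) • a + y₀) ∈ semiample (grp G hG) j := by
    refine semiample_cls hn hR hj hρ D' hi' (N * b + cr G) (fun v hv => ?_) (fun v hv hv0 => ?_)
      (fun u w => ?_) ?_
    · rw [hre]
      have h1 := haN.1 v
      have h2 := std_pos hv
      have h3 := std_le_avg (G := K) v
      have h4 : 0 < (avg K std v v).re := lt_of_lt_of_le h2 h3
      positivity
    · rw [hre]
      have h1 := haN.2.2 v hv hv0
      rw [coef_up, hb] at h1
      have h2 := one_le_std hv hv0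
      have h3 := std_le_avg (G := K) v
      have h4 : (N : ℝ) * b ≤ N * (frm (up a) v v).re := mul_le_mul_of_nonneg_left h1 hK0.le
      have h5 : (cr G : ℝ) * 1 ≤ cr G * (avg K std v v).re :=
        mul_le_mul_of_nonneg_left (h2.trans h3) hcc.le
      push_cast
      nlinarith
    · rw [up_smul, up_add, up_smul, frm_smul, frm_add, frm_smul, hy1]
      push_cast
      ring
    · rw [coef_smul, coef_add, coef_smul, hb, hy2]
      push_cast
      ring
  have h1 := span_smul (span_self hsa) (t := 1 / (cr G * N)) (by positivity)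
  have h2 : (1 / (cr G * (N : ℝ))) • (cr G : ℝ) • ((N : ℝ) • a + y₀) =
      a + (1 / ((k : ℝ) + 1)) • y₀ := by
    rw [← hKr, smul_smul, smul_add, smul_smul]
    have e1 : 1 / (cr G * (N : ℝ)) * cr G * N = 1 := by field_simp
    have e2 : 1 / (cr G * (N : ℝ)) * cr G = 1 / N := by field_simp
    rw [e1, e2, one_smul]
  rwa [h2] at h1

omit [Fintype K] in
/-- An integral class in the cone `NfR` is effective. -/
theorem eff_of_int (hn : OkR r) (hR : Restr G j K)
    (hj : IsExt ρ j) (hρ : Function.Injective ρ) {a : NR (grp G hG) j} (ha : a ∈ LR hG j)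
    (haN : a ∈ NfR hG j) : a ∈ effCone (grp G hG) j := by
  obtain ⟨D, k, hk⟩ := dat_of_LR hj ha
  obtain ⟨b, hb⟩ := coef_nat haN hk
  have hcc := cr_real (G := G)
  have key : (∀ v, v ≠ 0 → 0 < (frm (up a) v v).re) ∧
      (∀ v, Lat v → v ≠ 0 → (b : ℝ) ≤ (frm (up a) v v).re) ∨
        b = 0 ∧ ∀ v, 0 ≤ (frm (up a) v v).re := by
    by_cases hpd : ∀ v, v ≠ 0 → 0 < (frm (up a) v v).re
    · exact Or.inl ⟨hpd, fun v hv hv0 => by rw [← hb]; exact haN.2.2 v hv hv0⟩
    · push Not at hpd
      obtain ⟨v, hv, hv0⟩ := hpd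
      obtain ⟨w, hw, hw0, hww⟩ := exists_ker D haN.1 hv (le_antisymm hv0 (haN.1 v))
      have h1 := haN.2.2 w hw hw0
      rw [coef_up, hb, hww] at h1
      refine Or.inr ⟨?_, haN.1⟩
      have h2 : b ≤ 0 := by exact_mod_cast h1
      omega
  obtain ⟨N, hN, heff⟩ := effective_cls (G := G) (hG := hG) hn hR hj hρ D (frm_inv hR a) b key
    (y := (cr G : ℝ) • a)
    (fun u w => by rw [up_smul, frm_smul]; push_cast; ring) (by rw [coef_smul, hb])
  have hNr : (0 : ℝ) < N := by exact_mod_cast hN
  have h1 := span_smul (span_self heff) (t := 1 / (cr G * N)) (by positivity)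
  have h2 : (1 / (cr G * (N : ℝ))) • (N : ℝ) • (cr G : ℝ) • a = a := by
    rw [smul_smul, smul_smul]
    have e1 : 1 / (cr G * (N : ℝ)) * N * cr G = 1 := by field_simp
    rw [e1, one_smul]
  rwa [h2] at h1

/-- The element of a cone of integral classes of `NfR`. -/
theorem Cp_le (hn : OkR r) (hK : PresLat K) (hR : Restr G j K)
    (hj : IsExt ρ j) (hρ : Function.Injective ρ) {x : NR (grp G hG) j}
    (hx : x ∈ Cp (LR hG j) (NfR hG j)) : x ∈ nefEff (grp G hG) j := by
  obtain ⟨S, hS, hx⟩ := hx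
  exact ⟨cone_nef (fun a ha => nef_of_int hn hK hR hj hρ (hS a ha).1 (hS a ha).2) hx,
    cone_span (fun a ha => eff_of_int hn hR hj hρ (hS a ha).1 (hS a ha).2) hx⟩

/-- A class whose pullback is spanned by integral classes of `Nf`. -/
theorem Cp_of_up (hK : PresLat K) (hR : Restr G j K) (hj : IsExt ρ j)
    (hρ : Function.Injective ρ) {x : NR (grp G hG) j}
    (hx : up x ∈ Cp (AddSubgroup.closure (Pool.Agent.R895.integral (kum (Fin n) 1) j)) (Nf 1 j)) :
    x ∈ Cp (LR hG j) (NfR hG j) := by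
  classical
  obtain ⟨S, hS, c, hc, hxc⟩ := hx
  have hD : ∀ a ∈ S, Dat (frm a) ∧ ∃ b : ℕ, Pool.Agent.R895.coef a = b := fun a ha => by
    obtain ⟨D, k, hk⟩ := Pool.Agent.R895.eis_of_mem hj (hS a ha).1
    exact ⟨D, Pool.Agent.R895.coef_nat (hS a ha).2 hk⟩
  choose! b hb using fun a ha => (hD a ha).2
  choose! y hy1 hy2 hy3 using fun a (ha : a ∈ S) =>
    exists_cls hG hR hj hρ (avg_dat hK (hD a ha).1) (avg_inv (G := K) (frm a))
      (Fintype.card K * b a)
  have hcc := cr_real (G := G)
  have hcG : (0 : ℝ) < Fintype.card K := by exact_mod_cast Fintype.card_pos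
  have hcc' : (cr G : ℂ) ≠ 0 := cr_ne
  have hcG' : (Fintype.card K : ℂ) ≠ 0 := by exact_mod_cast Fintype.card_ne_zero (α := K)
  refine ⟨S.image y, fun z hz => ?_, ?_⟩
  · obtain ⟨a, ha, rfl⟩ := Finset.mem_image.1 hz
    have haN := (hS a ha).2
    refine ⟨AddSubgroup.subset_closure (hy1 a ha), fun v => ?_, ?_, fun v hv hv0 => ?_⟩
    · rw [hy2 a ha, re_natMul, avg_re]
      exact mul_nonneg hcc.le (Finset.sum_nonneg fun g _ => haN.1 _)
    · rw [coef_up, hy3 a ha]
      positivity
    · rw [hy2 a ha, re_natMul, avg_re, coef_up, hy3 a ha]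
      refine mul_le_mul_of_nonneg_left ?_ hcc.le
      push_cast
      rw [← hb a ha, ← nsmul_eq_mul, ← Finset.card_univ, ← Finset.sum_const]
      exact Finset.sum_le_sum fun g _ => haN.2.2 _ (hK g g.2 v hv) (by simpa using hv0)
  · have h1 : x = ∑ a ∈ S, (c a / (cr G * Fintype.card K)) • y a := by
      have hf : ∀ (s : Finset (N1 (kum (Fin n) 1) j)) (v w : Fin r → ℂ), s ⊆ S →
          frm (up (∑ a ∈ s, (c a / (cr G * Fintype.card K)) • y a)) v w =
            (Fintype.card K : ℂ)⁻¹ * avg K (frm (∑ a ∈ s, c a • a)) v w := by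
        intro s v w
        induction s using Finset.induction_on with
        | empty =>
          intro _
          rw [Finset.sum_empty, Finset.sum_empty, up_zero, frm_zero]
          unfold avg
          simp [frm_zero]
        | insert a s ha ih =>
          intro hs
          have e1 : avg K (frm (∑ a ∈ insert a s, c a • a)) v w =
              c a * avg K (frm a) v w + avg K (frm (∑ a ∈ s, c a • a)) v w := by
            unfold avg
            rw [Finset.sum_insert ha, Finset.mul_sum, ← Finset.sum_add_distrib]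
            exact Finset.sum_congr rfl fun g _ => by rw [frm_add, frm_smul]
          rw [Finset.sum_insert ha, up_add, frm_add,
            ih fun a ha => hs (Finset.mem_insert_of_mem ha), up_smul, frm_smul,
            hy2 a (hs (Finset.mem_insert_self _ _)), e1]
          push_cast
          field_simp
      have hcs : ∀ s : Finset (N1 (kum (Fin n) 1) j), s ⊆ S →
          coef (∑ a ∈ s, (c a / (cr G * Fintype.card K)) • y a) =
            Pool.Agent.R895.coef (∑ a ∈ s, c a • a) := by
        intro s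
        induction s using Finset.induction_on with
        | empty =>
          intro _
          rw [Finset.sum_empty, Finset.sum_empty, coef_zero, Pool.Agent.R895.coef_zero]
        | insert a s ha ih =>
          intro hs
          have ha' := hs (Finset.mem_insert_self a s)
          rw [Finset.sum_insert ha, Finset.sum_insert ha, coef_add,
            ih fun a ha => hs (Finset.mem_insert_of_mem ha),
            coef_smul, hy3 a ha', Pool.Agent.R895.coef_add, Pool.Agent.R895.coef_smul, hb a ha']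
          push_cast
          field_simp
      refine NR_ext (fun v w => ?_) ?_
      · rw [hf S v w (Finset.Subset.refl _), ← hxc, avg_of_inv (frm_inv hR x)]
        field_simp
      · rw [hcs S (Finset.Subset.refl _), ← hxc]
        rfl
    rw [h1]
    exact mem_cone_of_sum S _ _ (fun a ha => Finset.mem_image_of_mem _ ha)
      fun a _ => div_nonneg (hc a) (by positivity)

theorem mem_Cp_iff (hn : OkR r) (hK : PresLat K) (hR : Restr G j K)
    (hj : IsExt ρ j) (hρ : Function.Injective ρ) (x : NR (grp G hG) j) :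
    x ∈ Cp (LR hG j) (NfR hG j) ↔ x ∈ nefEff (grp G hG) j := by
  refine ⟨fun h => Cp_le hn hK hR hj hρ h, fun h => ?_⟩
  have h1 : x ∈ NfR hG j := nefCone_le hj hρ h.1
  have h2 : up x ∈ Pool.Agent.R895.effCone (kum (Fin n) 1) j := up_eff h.2
  rw [mem_NfR] at h1
  exact Cp_of_up hK hR hj hρ (Pool.Agent.R895.Cp_of_eff hj hρ h1 h2)

/-- The relative nef cone. -/
theorem nefCone_eq (hn : OkR r) (hK : PresLat K) (hR : Restr G j K)
    (hj : IsExt ρ j) (hρ : Function.Injective ρ) : nefCone (grp G hG) j = NfR hG j := by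
  refine Set.Subset.antisymm (nefCone_le hj hρ) fun x hx => ?_
  obtain ⟨y₀, hy0, hy1, hy2⟩ := exists_y₀ hG hK hR hj hρ
  have hcc := cr_real (G := G)
  have hre : ∀ v : Fin r → ℂ, (frm (up y₀) v v).re = cr G * (2 * (avg K std v v).re) := by
    intro v
    rw [hy1, re_twice]
  have hyN : y₀ ∈ NfR hG j := y_N hy1 hy2
  refine mem_closed (y := y₀) isClosed_closure fun k => ?_
  have hk : (0 : ℝ) < 1 / ((k : ℝ) + 1) := by positivity
  have h1 : up (x + (1 / ((k : ℝ) + 1)) • y₀) ∈ Cp (AddSubgroup.closure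
      (Pool.Agent.R895.integral (kum (Fin n) 1) j)) (Nf 1 j) := by
    have h0 : x + (1 / ((k : ℝ) + 1)) • y₀ ∈ NfR hG j := NfR_add hx (NfR_smul hk.le hyN)
    rw [mem_NfR] at h0
    refine Pool.Agent.R895.Cp_of_pd hj hρ
      h0 ⟨1 / ((k : ℝ) + 1) * (cr G * 2), by positivity, fun v => ?_⟩
    rw [up_add, up_smul, frm_add, Complex.add_re, frm_smul, Complex.re_ofReal_mul, hre]
    have h2 := hx.1 v
    have h3 := std_le_avg (G := K) v
    have h4 : 1 / ((k : ℝ) + 1) * (cr G * 2) * (std v v).re ≤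
        1 / ((k : ℝ) + 1) * (cr G * 2) * (avg K std v v).re :=
      mul_le_mul_of_nonneg_left h3 (by positivity)
    linarith
  obtain ⟨S, hS, h2⟩ := Cp_of_up hK hR hj hρ h1
  exact cone_nef (fun a ha => nef_of_int hn hK hR hj hρ (hS a ha).1 (hS a ha).2) h2

end Pool.Agent.H899.RA
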