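import Pool.Agent.H899.ER.Fin
import Pool.Agent.H899.RA.Nef

/-!
# The fundamental domain
-/

set_option autoImplicit false
set_option maxHeartbeats 400000

namespace Pool.Agent.H899.RA

open Filter Topology
open Pool.Agent.H899.ER hiding semiample_cls effective_cls nef_of_int eff_of_int Cp_le Cp_of_up
  mem_Cp_iff nefCone_eq core inv_comb'
open Pool.Agent.W594.SYZ2 (IsHermitian)
open Pool.Agent.R895 (Lat BlBundle act kum N1 N1s IsEis IsClass std frm kap Nf Dat IsExt exH exH_herm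
  exH_int co mem_co frm_add frm_smul frm_sub frm_zero form_frm N1_ext' kap_ne kap_pos re_natMul
  frm_herm std_dat std_herm std_int std_pos std_nonneg one_le_std le_std xi exists_ker lat
  dat_of_isInt re_kap_div om lat_single cut_int exists_vectors Normalizes)
open Pool.Agent.R324.MovBl (cone_scale)
open Pool.Agent.Y167 (AffGrp cone CData Pol Cp cone_ind cone_add cone_smul cone_sum cone_le
  mem_cone_self mem_cone_of_sum zero_mem_cone cone_mono)
open Pool.Agent.Y167.CC (LinGrp Preserves IsFundDomain)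
open Pool.Agent.T6.H34.EK (QBundle PresLat grp NS NSs res IsCls c0 c0_pos c0_real avg avg_dat avg_inv
  avg_re avg_of_inv Inv std_le_avg re_twice)

variable {n r : ℕ} {G : Subgroup ((Fin n → ℂ) ≃ₗ[ℂ] (Fin n → ℂ))} {hG : PresLat G}
  {j : (Fin r → ℂ) →ₗ[ℂ] (Fin n → ℂ)} {ρ : Fin r → Fin n}
  {K : Subgroup ((Fin r → ℂ) ≃ₗ[ℂ] (Fin r → ℂ))}

/-- **The relative cone conjecture**, general form. -/
theorem core [Fintype G] [Fintype K] (hn : OkR r) (hr : 0 < r)
    (hG : PresLat G) (hK : PresLat K) (hR : Restr G j K) (hj : IsExt ρ j)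
    (hρ : Function.Injective ρ) (𝒢 : LinGrp (NR (grp G hG) j)) (h𝒢 : IsAutGroup 𝒢) :
    HasDomain 𝒢 := by
  classical
  have hne : Nonempty (Fin n) := ⟨ρ ⟨0, hr⟩⟩
  have hn0 : 0 < n := Fin.pos_iff_nonempty.2 hne
  obtain ⟨y₀, hy0, hy1, hy2⟩ := exists_y₀ hG hK hR hj hρ
  obtain ⟨Y, D⟩ := exists_cdata hj hρ hn0 hr hy0 hy1 hy2
  obtain ⟨F₁, hF₁, hcov⟩ := covering hG hK hR hj hρ
  have hcc := cr_real (G := G)
  have h𝒢L : ∀ g ∈ 𝒢, ∀ x ∈ LR hG j, g x ∈ LR hG j := fun g hg x hx =>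
    closure_map (h𝒢.int g hg) hx
  have hre : ∀ v : Fin r → ℂ, (frm (up y₀) v v).re = cr G * (2 * (avg K std v v).re) := by
    intro v
    rw [hy1, re_twice]
  have hpd : ∀ (t : ℝ) (x : NR (grp G hG) j), 0 < t → x - t • y₀ ∈ NfR hG j →
      x ∈ NfR hG j ∧ ∃ t : ℝ, 0 < t ∧ ∀ v, t * (std v v).re ≤ (frm (up x) v v).re := by
    intro t x ht hx
    have h4 : x = (x - t • y₀) + t • y₀ := by abel
    refine ⟨?_, t * (cr G * 2), by positivity, fun v => ?_⟩
    · rw [h4]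
      exact NfR_add hx (NfR_smul ht.le D.y_N)
    · rw [h4, up_add, up_smul, frm_add, Complex.add_re, frm_smul, Complex.re_ofReal_mul, hre]
      have h5 := hx.1 v
      have h6 := std_le_avg (G := K) v
      have h7 : t * (cr G * 2) * (std v v).re ≤ t * (cr G * 2) * (avg K std v v).re :=
        mul_le_mul_of_nonneg_left h6 (by positivity)
      linarith
  have hadd : ∀ x ∈ NfR hG j, ∀ t : ℝ, 0 < t → x + t • y₀ ∈ nefEff (grp G hG) j := by
    intro x hx t ht
    obtain ⟨k1, k2⟩ := hpd t (x + t • y₀) ht (by rwa [add_sub_cancel_right])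
    refine Cp_le hn hK hR hj hρ (Cp_of_up hK hR hj hρ ?_)
    rw [mem_NfR] at k1
    exact Pool.Agent.R895.Cp_of_pd hj hρ k1 k2
  have h𝒢N : ∀ g ∈ 𝒢, ∀ x ∈ NfR hG j, g x ∈ NfR hG j := by
    intro g hg x hx
    refine mem_closed (y := g y₀) isClosed_NfR fun n => ?_
    have h4 := h𝒢.nef_eff g hg _ (hadd x hx (1 / ((n : ℝ) + 1)) (by positivity))
    rw [map_add, map_smul] at h4
    exact nefCone_le hj hρ h4.1
  obtain ⟨S, hS1, hS2, hS3⟩ := D.domain 𝒢 h𝒢L h𝒢N F₁ hF₁ (by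
    rintro x ⟨t, ht, hx⟩
    obtain ⟨k1, k2⟩ := hpd t x ht hx
    obtain ⟨f, g, hf1, hf2, hf3, hgx⟩ := hcov x k1 k2
    exact ⟨g, h𝒢.lin f g hf1 hf2 hf3, hgx⟩)
  have hcone' : cone (S.image fun a => (cr G : ℝ) • a) = cone S := cone_scale hcc S
  refine ⟨S.image fun a => (cr G : ℝ) • a, ?_, ?_, ?_, ?_⟩
  · intro a ha
    obtain ⟨a', ha', rfl⟩ := Finset.mem_image.1 ha
    exact cr_int hR hj hρ (hS1 a' ha').1 (hS1 a' ha').2
  · rw [hcone']
    intro x hx
    exact Cp_le hn hK hR hj hρ ⟨S, hS1, hx⟩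
  · ext x
    rw [← mem_Cp_iff hn hK hR hj hρ, hS2, hcone', Set.mem_iUnion₂]
    constructor
    · rintro ⟨g, hg, hgx⟩
      exact ⟨g⁻¹, 𝒢.inv_mem hg, g x, hgx, g.symm_apply_apply x⟩
    · rintro ⟨g, hg, y, hy, rfl⟩
      refine ⟨g⁻¹, 𝒢.inv_mem hg, ?_⟩
      have : (g⁻¹ : NR (grp G hG) j ≃ₗ[ℝ] NR (grp G hG) j) (g y) = y := g.symm_apply_apply y
      rwa [this]
  · intro g hg hg1
    rw [hcone', Set.eq_empty_iff_forall_notMem]
    obtain ⟨φ, hφ0, hφ1, hφ2⟩ := hS3 g hg hg1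
    rintro x ⟨hx, y, hy, rfl⟩
    have h4 := hφ2 y hy
    obtain ⟨w, hw⟩ : ∃ w, 0 < φ w := by
      by_contra hcon
      push Not at hcon
      apply hφ0
      ext w
      have e1 := hcon w
      have e2 := hcon (-w)
      rw [map_neg] at e2
      change φ w = 0
      linarith
    have hcont : Continuous fun t : ℝ => g y - t • w := by fun_prop
    have hmem : ∀ᶠ t : ℝ in 𝓝 0, g y - t • w ∈ interior (cone S) := by
      apply hcont.continuousAt.eventually_mem
      rw [zero_smul, sub_zero]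
      exact isOpen_interior.mem_nhds hx
    obtain ⟨ε, hε, hball⟩ := Metric.eventually_nhds_iff.1 hmem
    have h5 := interior_subset (hball (y := ε / 2) (by
      rw [Real.dist_eq, sub_zero, abs_of_pos (by linarith)]
      linarith))
    have h6 := hφ1 _ h5
    rw [map_sub, map_smul, smul_eq_mul] at h6
    have h7 : 0 < ε / 2 * φ w := by positivity
    linarith

end Pool.Agent.H899.RA
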