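import Pool.Agent.H899.ER.Cls

/-!
# Averages of sums of squares of integral linear functions
-/

set_option autoImplicit false

namespace Pool.Agent.H899.RA

open Matrix hiding IsHermitian
open Pool.Agent.W594.SYZ2 (IsHermitian)
open Pool.Agent.R895 (Lat IsEis Dat Pd Psd q IsLat IsSub RC exH exA exH_herm exH_int exH_eq mx mx_q
  mx_eis lsq sum_lsq dec_of_multiset exists_sub_card Dec RC_psd exA_mem_of exA_mem_of' ext ext_dot
  ext_apply co mem_co single_dot lat_star exists_single exists_single' isSub_eis isSub_zero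
  lat_single)
open Pool.Agent.T6.H34.EK (PresLat avg)

/-- The decompositions into sums of squares exist in rank `r`. -/
structure OkR (r : ℕ) : Prop where
  lt : ∀ {H : Matrix (Fin r) (Fin r) ℂ}, Pd H → (∀ i j, IsEis (H i j)) → ∀ {b h : ℝ}, 0 ≤ b →
    b < h → (∀ w, IsLat w → w ≠ 0 → h ≤ q H w) → ∀ {J : Set (Fin r → ℂ)}, IsSub J →
    (∃ v, IsLat v ∧ v ∉ J) → ((fun i j => H i j : Fin r → Fin r → ℂ), b) ∈ RC J
  zero : ∀ {H : Matrix (Fin r) (Fin r) ℂ}, Pd H → (∀ i j, IsEis (H i j)) → ∀ {h : ℝ}, 0 < h →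
    (∀ w, IsLat w → w ≠ 0 → h ≤ q H w) → ((fun i j => H i j : Fin r → Fin r → ℂ), h) ∈ RC {0}

/-- The case of rank one. -/
theorem one_aux {H : Matrix (Fin 1) (Fin 1) ℂ} (hH : Pd H) (hHe : ∀ i j, IsEis (H i j)) {h : ℝ}
    (hmin : ∀ w, IsLat w → w ≠ 0 → h ≤ q H w) {J : Set (Fin 1 → ℂ)}
    (hJ : (fun _ => 1 : Fin 1 → ℂ) ∉ J) : ((fun i j => H i j : Fin 1 → Fin 1 → ℂ), h) ∈ RC J := by
  have h1 : IsLat (fun _ => 1 : Fin 1 → ℂ) := fun _ => IsEis.one
  have h2 : (fun _ => 1 : Fin 1 → ℂ) ≠ 0 := fun h => one_ne_zero (congrFun h 0)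
  have hq : ∀ w : Fin 1 → ℂ, q H w = Complex.normSq (w 0) * (H 0 0).re := by
    intro w
    unfold q
    simp only [dotProduct, mulVec, Finset.univ_unique, Fin.default_eq_zero, Finset.sum_singleton,
      Pi.star_apply]
    have h5 : (H 0 0).im = 0 := by
      have := congrFun (congrFun hH.1 0) 0
      rw [conjTranspose_apply] at this
      have h6 := congrArg Complex.im this
      simp at h6
      linarith
    have h6 : star (w 0) = (starRingEnd ℂ) (w 0) := rfl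
    rw [h6, Complex.normSq_apply]
    simp only [Complex.mul_re, Complex.conj_re, Complex.conj_im, Complex.mul_im, h5]
    ring
  obtain ⟨k, hk⟩ := (hHe 0 0).real (by
    have := congrFun (congrFun hH.1 0) 0
    rw [conjTranspose_apply] at this
    have h6 := congrArg Complex.im this
    simp at h6
    linarith)
  have h3 := hmin _ h1 h2
  rw [hq] at h3
  have h4 := hH.2 _ h2
  rw [hq] at h4
  simp only [Complex.normSq_one, one_mul] at h3 h4
  have hk' : (H 0 0).re = k := by rw [hk]; simp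
  rw [hk'] at h3 h4
  have hk0 : 0 < k := by exact_mod_cast h4
  obtain ⟨n, rfl⟩ := Int.eq_ofNat_of_zero_le hk0.le
  refine RC.mono (β := n) ?_ (by exact_mod_cast h3)
  have h5 := RC.nsmul n (RC.sq_mem' (J := J) h1 hJ)
  have h6 : (n : ℝ) • ((Pool.Agent.R895.sq (fun _ => 1 : Fin 1 → ℂ), (1 : ℝ)) :
      (Fin 1 → Fin 1 → ℂ) × ℝ) = ((fun i j => H i j : Fin 1 → Fin 1 → ℂ), (n : ℝ)) := by
    refine Prod.ext ?_ ?_
    · funext i j
      have hi : i = 0 := Subsingleton.elim _ _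
      have hj : j = 0 := Subsingleton.elim _ _
      subst hi
      subst hj
      rw [Prod.smul_fst]
      simp only [Pi.smul_apply, Pool.Agent.R895.sq, star_one, mul_one, Complex.real_smul]
      rw [hk]
      simp
    · rw [Prod.smul_snd]
      simp
  rwa [h6] at h5

theorem okR {r : ℕ} (h1 : 1 ≤ r) (h6 : r ≤ 6) : OkR r := by
  rcases Nat.lt_or_ge r 2 with h | h
  · obtain rfl : r = 1 := by omega
    refine ⟨fun {H} hH hHe {b h} hb hbh hmin {J} hJ hne => ?_, fun {H} hH hHe {h} hh hmin => ?_⟩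
    · refine RC.mono (one_aux hH hHe hmin ?_) hbh.le
      intro h1
      obtain ⟨v, hv, hvJ⟩ := hne
      apply hvJ
      have h2 := hJ.smul (v 0) (hv 0) _ h1
      have h3 : (v 0 • (fun _ => 1 : Fin 1 → ℂ)) = v := by
        funext i
        have hi : i = 0 := Subsingleton.elim _ _
        subst hi
        simp
      rwa [h3] at h2
    · exact one_aux hH hHe hmin fun h => one_ne_zero (congrFun h 0)
  · have hok := Pool.Agent.H899.ER.ok (n := r) h h6
    exact ⟨fun hH hHe _ _ hb hbh hmin _ hJ hne =>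
      Pool.Agent.T6.H34.E6.RC_of_lt hok hH hHe hb hbh hmin hJ hne,
      fun hH hHe _ hh hmin => Pool.Agent.T6.H34.E6.RC_zero hok hH hHe hh hmin⟩

section fc

variable {n : ℕ} {J : Set (Fin n → ℂ)}

/-- A positive multiple of the form `h` is a sum of squares of integral linear functions, of which
at least `β` (relative to the multiple) are not in `J`. -/
def FC (h : (Fin n → ℂ) → (Fin n → ℂ) → ℂ) (β : ℝ) (J : Set (Fin n → ℂ)) : Prop :=
  ∃ (N : ℕ) (S : Multiset (Fin n → ℂ)), 1 ≤ N ∧ (∀ l ∈ S, Lat l) ∧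
    (∀ u w, N * h u w = (S.map (lsq u w)).sum) ∧ ∃ T ≤ S, (∀ l ∈ T, l ∉ J) ∧ N * β ≤ T.card

theorem FC_of_RC {h : (Fin n → ℂ) → (Fin n → ℂ) → ℂ} {β : ℝ} {A : Fin n → Fin n → ℂ}
    (hA : (A, β) ∈ RC J)
    (hh : ∀ u w, h u w = ∑ i, ∑ k, A i k * (u i * (starRingEnd ℂ) (w k))) : FC h β J := by
  obtain ⟨N, S, hN, hS, hsum, T, hTS, hT, hc⟩ := hA
  refine ⟨N, S, hN, hS, fun u w => ?_, T, hTS, hT, hc⟩
  rw [sum_lsq, ← hsum, hh]
  simp only [Pi.smul_apply, Finset.mul_sum]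
  refine Finset.sum_congr rfl fun i _ => Finset.sum_congr rfl fun k _ => ?_
  rw [Complex.real_smul]
  push_cast
  ring

theorem dec_of_FC {h : (Fin n → ℂ) → (Fin n → ℂ) → ℂ} {b : ℕ} (H : FC h b J) : Dec h b J := by
  obtain ⟨N, S, hN, hS, hsum, T, hTS, hT, hc⟩ := H
  have hc' : N * b ≤ T.card := by exact_mod_cast hc
  obtain ⟨T', hT', hc2⟩ := exists_sub_card hc'
  obtain ⟨U, rfl⟩ := Multiset.le_iff_exists_add.1 (hT'.trans hTS)
  refine dec_of_multiset N U T' hN (fun l hl => hS l (Multiset.mem_add.2 (Or.inr hl)))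
    (fun l hl => ⟨hS l (Multiset.mem_add.2 (Or.inl hl)), hT l (Multiset.mem_of_le hT' hl)⟩) hc2
    fun u w => ?_
  rw [← Multiset.sum_add, ← Multiset.map_add, hsum]

theorem FC_zero : FC (fun _ _ : Fin n → ℂ => 0) 0 J :=
  ⟨1, 0, le_rfl, by simp, by simp, 0, le_rfl, by simp, by simp⟩

theorem FC_add {h h' : (Fin n → ℂ) → (Fin n → ℂ) → ℂ} {β β' : ℝ} (hx : FC h β J)
    (hy : FC h' β' J) : FC (fun u w => h u w + h' u w) (β + β') J := by
  obtain ⟨N, S, h1, h2, h3, T, h4, h5, h6⟩ := hx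
  obtain ⟨M, U, k1, k2, k3, V, k4, k5, k6⟩ := hy
  refine ⟨N * M, M • S + N • U, Nat.mul_pos h1 k1, ?_, fun u w => ?_, M • T + N • V, ?_, ?_, ?_⟩
  · intro l hl
    rcases Multiset.mem_add.1 hl with h | h
    · exact h2 l (Multiset.mem_of_mem_nsmul h)
    · exact k2 l (Multiset.mem_of_mem_nsmul h)
  · rw [Multiset.map_add, Multiset.sum_add, Multiset.map_nsmul, Multiset.map_nsmul,
      Multiset.sum_nsmul, Multiset.sum_nsmul, ← h3, ← k3, nsmul_eq_mul, nsmul_eq_mul]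
    push_cast
    ring
  · exact add_le_add (nsmul_le_nsmul_right h4 M) (nsmul_le_nsmul_right k4 N)
  · intro l hl
    rcases Multiset.mem_add.1 hl with h | h
    · exact h5 l (Multiset.mem_of_mem_nsmul h)
    · exact k5 l (Multiset.mem_of_mem_nsmul h)
  · rw [Multiset.card_add, Multiset.card_nsmul, Multiset.card_nsmul]
    push_cast
    have hN : (0 : ℝ) ≤ N := Nat.cast_nonneg _
    have hM : (0 : ℝ) ≤ M := Nat.cast_nonneg _
    nlinarith [mul_le_mul_of_nonneg_left h6 hM, mul_le_mul_of_nonneg_left k6 hN]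

theorem FC_sum {κ : Type*} (s : Finset κ) (f : κ → (Fin n → ℂ) → (Fin n → ℂ) → ℂ) {β : ℝ}
    (h : ∀ i ∈ s, FC (f i) β J) : FC (fun u w => ∑ i ∈ s, f i u w) (s.card * β) J := by
  classical
  induction s using Finset.induction_on with
  | empty => simpa using FC_zero (n := n) (J := J)
  | insert i s hi ih =>
    have h1 := FC_add (h i (Finset.mem_insert_self _ _))
      (ih fun j hj => h j (Finset.mem_insert_of_mem hj))
    have h2 : (fun u w => ∑ j ∈ insert i s, f j u w) =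
        fun u w => f i u w + ∑ j ∈ s, f j u w := by
      funext u w
      rw [Finset.sum_insert hi]
    rw [h2, Finset.card_insert_of_notMem hi]
    have h3 : (((s.card + 1 : ℕ) : ℝ)) * β = β + s.card * β := by push_cast; ring
    rw [h3]
    exact h1

/-- The transpose of a linear map. -/
noncomputable def tr (g : (Fin n → ℂ) ≃ₗ[ℂ] (Fin n → ℂ)) (l : Fin n → ℂ) : Fin n → ℂ := fun i =>
  l ⬝ᵥ g (Pi.single i 1)

theorem tr_dot (g : (Fin n → ℂ) ≃ₗ[ℂ] (Fin n → ℂ)) (l u : Fin n → ℂ) :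
    tr g l ⬝ᵥ u = l ⬝ᵥ g u := by
  have h1 : u = ∑ i, u i • (Pi.single i 1 : Fin n → ℂ) := by
    ext i
    simp [Finset.sum_apply, Pi.single_apply]
  conv_rhs => rw [h1]
  rw [map_sum, dotProduct_sum]
  unfold dotProduct tr
  refine Finset.sum_congr rfl fun i _ => ?_
  rw [map_smul]
  simp only [Pi.smul_apply, smul_eq_mul, dotProduct, Finset.sum_mul]
  exact Finset.sum_congr rfl fun k _ => by ring

theorem tr_lat {g : (Fin n → ℂ) ≃ₗ[ℂ] (Fin n → ℂ)} (hg : ∀ v, Lat v → Lat (g v))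
    {l : Fin n → ℂ} (hl : Lat l) : Lat (tr g l) := fun i => by
  unfold tr dotProduct
  exact IsEis.sum _ _ fun k _ => (hl k).mul (hg _ (lat_single i) k)

theorem FC_pull {h : (Fin n → ℂ) → (Fin n → ℂ) → ℂ} {β : ℝ} {J' : Set (Fin n → ℂ)}
    {g : (Fin n → ℂ) ≃ₗ[ℂ] (Fin n → ℂ)} (hg : ∀ v, Lat v → Lat (g v)) (hF : FC h β J')
    (hJ : ∀ l, tr g l ∈ J → l ∈ J') : FC (fun u w => h (g u) (g w)) β J := by
  obtain ⟨N, S, hN, hS, hsum, T, hTS, hT, hc⟩ := hF
  refine ⟨N, S.map (tr g), hN, ?_, fun u w => ?_, T.map (tr g), Multiset.map_le_map hTS, ?_, ?_⟩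
  · intro l hl
    obtain ⟨l', hl', rfl⟩ := Multiset.mem_map.1 hl
    exact tr_lat hg (hS l' hl')
  · rw [hsum, Multiset.map_map]
    refine congrArg _ (Multiset.map_congr rfl fun l _ => ?_)
    simp only [Function.comp_apply, lsq, tr_dot]
  · intro l hl
    obtain ⟨l', hl', rfl⟩ := Multiset.mem_map.1 hl
    exact fun h => hT l' hl' (hJ l' h)
  · rw [Multiset.card_map]
    exact hc

end fc

variable {n r : ℕ} {ρ : Fin r → Fin n} {h : (Fin r → ℂ) → (Fin r → ℂ) → ℂ}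

theorem single_mem {J : Set (Fin n → ℂ)} (i : Fin n) (a b : DecidableEq (Fin n))
    (h : @Pi.single (Fin n) (fun _ => ℂ) _ a i (1 : ℂ) ∈ J) :
    @Pi.single (Fin n) (fun _ => ℂ) _ b i (1 : ℂ) ∈ J := by
  rwa [Subsingleton.elim a b] at h

theorem FC_out (hr : OkR r) (D : Dat h) (b : ℕ) (hp : ∀ v, v ≠ 0 → 0 < (h v v).re)
    (hb : ∀ v, Lat v → v ≠ 0 → (b : ℝ) < (h v v).re) :
    (∀ v : Fin n → ℂ, ¬Lat v → FC (exH ρ b h) b {l | IsEis (l ⬝ᵥ v)}) ∧
      ∀ u : Fin n → ℂ, u ≠ 0 → FC (exH ρ b h) b {l | l ⬝ᵥ u = 0} := by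
  classical
  have hpsd : Psd (Matrix.of (mx h)) := (D.pd hp).psd
  have hmin : ∀ w, IsLat w → w ≠ 0 → (b : ℝ) + 1 ≤ q (Matrix.of (mx h)) w := by
    intro w hw hw0
    rw [mx_q D.herm]
    obtain ⟨n, hn⟩ := D.val (lat_star hw)
    have h1 := hb (star w) (lat_star hw) (by rwa [star_ne_zero])
    rw [hn] at h1 ⊢
    have h2 : (b : ℤ) < n := by exact_mod_cast h1
    have h3 : (b : ℤ) + 1 ≤ n := h2
    exact_mod_cast h3
  have key1 : ∀ {J : Set (Fin n → ℂ)} {J' : Set (Fin r → ℂ)}, IsSub J' →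
      (∃ l : Fin r → ℂ, IsLat l ∧ l ∉ J') → (∀ l, ext ρ l ∈ J → l ∈ J') →
      FC (exH ρ b h) b J := by
    intro J J' hJ' hne hJ
    refine FC_of_RC (exA_mem_of b (RC.lift (J' := J') ?_ hJ)) (exH_eq D.herm b)
    exact hr.lt (D.pd hp) (mx_eis D.int) (Nat.cast_nonneg b) (lt_add_one _) hmin hJ' hne
  have key2 : ∀ {J : Set (Fin n → ℂ)} {i : Fin n}, i ∈ co ρ → Pi.single i 1 ∉ J →
      FC (exH ρ b h) b J := by
    intro J i hi hJ
    refine FC_of_RC (exA_mem_of' le_rfl (RC.lift (J' := Set.univ) ?_ fun _ _ => Set.mem_univ _)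
      hi ?_) (exH_eq D.herm b)
    · exact RC_psd hpsd (mx_eis D.int)
    · exact fun h => hJ (single_mem i _ _ h)
  refine ⟨fun v hv => ?_, fun u hu => ?_⟩
  · by_cases h1 : Lat (v ∘ ρ)
    · obtain ⟨i, hi⟩ : ∃ i, ¬IsEis (v i) := by
        by_contra hcon
        push Not at hcon
        exact hv hcon
      refine key2 (i := i) ?_ ?_
      · rw [mem_co]
        rintro a rfl
        exact hi (h1 a)
      · show ¬IsEis (Pi.single i 1 ⬝ᵥ v)
        rwa [single_dot]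
    · refine key1 (isSub_eis (v ∘ ρ)) ?_ fun l hl => ?_
      · obtain ⟨l, hl1, hl2⟩ := exists_single h1
        exact ⟨l, hl1, hl2⟩
      · have : IsEis (ext ρ l ⬝ᵥ v) := hl
        rw [ext_dot] at this
        exact this
  · by_cases h1 : u ∘ ρ = 0
    · obtain ⟨i, hi⟩ := Function.ne_iff.1 hu
      refine key2 (i := i) ?_ ?_
      · rw [mem_co]
        rintro a rfl
        exact hi (congrFun h1 a)
      · show ¬(Pi.single i 1 ⬝ᵥ u = 0)
        rw [single_dot]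
        exact hi
    · refine key1 (isSub_zero (u ∘ ρ)) ?_ fun l hl => ?_
      · obtain ⟨l, hl1, hl2⟩ := exists_single' h1
        exact ⟨l, hl1, hl2⟩
      · have : ext ρ l ⬝ᵥ u = 0 := hl
        rw [ext_dot] at this
        exact this

theorem FC_sec (hρ : Function.Injective ρ) (hr : OkR r) (D : Dat h) (b : ℕ)
    (hb : (∀ v, v ≠ 0 → 0 < (h v v).re) ∧ (∀ v, Lat v → v ≠ 0 → (b : ℝ) ≤ (h v v).re) ∨
      b = 0 ∧ ∀ v, 0 ≤ (h v v).re) : FC (n := n) (exH ρ b h) b {0} := by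
  refine FC_of_RC (exA_mem_of b (RC.lift (J' := {0}) ?_ ?_)) (exH_eq D.herm b)
  · rcases hb with ⟨hp, hb⟩ | ⟨rfl, hp⟩
    · rcases Nat.eq_zero_or_pos b with rfl | hb0
      · rw [Nat.cast_zero]
        exact RC_psd (D.pd hp).psd (mx_eis D.int)
      · refine hr.zero (D.pd hp) (mx_eis D.int) (by exact_mod_cast hb0) fun w hw hw0 => ?_
        rw [mx_q D.herm]
        exact hb (star w) (lat_star hw) (by rwa [star_ne_zero])
    · rw [Nat.cast_zero]
      exact RC_psd (D.psd hp) (mx_eis D.int)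
  · intro l hl
    have hl' : ext ρ l = 0 := hl
    show l = 0
    ext a
    rw [← ext_apply hρ l a, hl']
    rfl

section avg

variable {G : Subgroup ((Fin n → ℂ) ≃ₗ[ℂ] (Fin n → ℂ))} [Fintype G]

theorem FC_avg {f : (Fin n → ℂ) → (Fin n → ℂ) → ℂ} {β : ℝ} {J : Set (Fin n → ℂ)}
    (hF : ∀ g : G, FC (fun u w => f ((g : (Fin n → ℂ) ≃ₗ[ℂ] (Fin n → ℂ)) u)
      ((g : (Fin n → ℂ) ≃ₗ[ℂ] (Fin n → ℂ)) w)) β J) :
    FC (avg G f) (Fintype.card G * β) J := by
  have h1 := FC_sum Finset.univ (fun (g : G) u w => f ((g : (Fin n → ℂ) ≃ₗ[ℂ] (Fin n → ℂ)) u)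
      ((g : (Fin n → ℂ) ≃ₗ[ℂ] (Fin n → ℂ)) w)) (fun g _ => hF g)
  rw [Finset.card_univ] at h1
  exact h1

/-- The average of the extended form gives a semiample line bundle. -/
theorem dec_avg (hG : PresLat G) (hr : OkR r) (D : Dat h) (b : ℕ)
    (hp : ∀ v, v ≠ 0 → 0 < (h v v).re) (hb : ∀ v, Lat v → v ≠ 0 → (b : ℝ) < (h v v).re) :
    (∀ v : Fin n → ℂ, ¬Lat v →
      Dec (avg G (exH ρ b h)) (Fintype.card G * b) {l | IsEis (l ⬝ᵥ v)}) ∧
      ∀ u : Fin n → ℂ, u ≠ 0 →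
        Dec (avg G (exH ρ b h)) (Fintype.card G * b) {l | l ⬝ᵥ u = 0} := by
  obtain ⟨h1, h2⟩ := FC_out (ρ := ρ) hr D b hp hb
  refine ⟨fun v hv => dec_of_FC ?_, fun u hu => dec_of_FC ?_⟩
  · rw [Nat.cast_mul]
    refine FC_avg fun g => FC_pull (fun w hw => hG g g.2 w hw)
      (h1 ((g : (Fin n → ℂ) ≃ₗ[ℂ] (Fin n → ℂ)) v) fun h =>
        hv ((Pool.Agent.T6.H34.EK.lat_equiv hG g.2).1 h)) fun l hl => ?_
    have hl' : IsEis (tr (g : (Fin n → ℂ) ≃ₗ[ℂ] (Fin n → ℂ)) l ⬝ᵥ v) := hl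
    rwa [tr_dot] at hl'
  · rw [Nat.cast_mul]
    refine FC_avg fun g => FC_pull (fun w hw => hG g g.2 w hw)
      (h2 ((g : (Fin n → ℂ) ≃ₗ[ℂ] (Fin n → ℂ)) u) fun h =>
        hu ((g : (Fin n → ℂ) ≃ₗ[ℂ] (Fin n → ℂ)).map_eq_zero_iff.1 h)) fun l hl => ?_
    have hl' : tr (g : (Fin n → ℂ) ≃ₗ[ℂ] (Fin n → ℂ)) l ⬝ᵥ u = 0 := hl
    rwa [tr_dot] at hl'

/-- The average of the extended form gives an effective line bundle. -/
theorem dec_avg_zero (hG : PresLat G) (hρ : Function.Injective ρ) (hr : OkR r) (D : Dat h) (b : ℕ)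
    (hb : (∀ v, v ≠ 0 → 0 < (h v v).re) ∧ (∀ v, Lat v → v ≠ 0 → (b : ℝ) ≤ (h v v).re) ∨
      b = 0 ∧ ∀ v, 0 ≤ (h v v).re) :
    Dec (avg G (exH ρ b h)) (Fintype.card G * b) {0} := by
  refine dec_of_FC ?_
  rw [Nat.cast_mul]
  refine FC_avg fun g => FC_pull (fun w hw => hG g g.2 w hw) (FC_sec hρ hr D b hb) fun l hl => ?_
  have hl' : tr (g : (Fin n → ℂ) ≃ₗ[ℂ] (Fin n → ℂ)) l = 0 := hl
  show l = 0
  have h1 : ∀ u, l ⬝ᵥ u = 0 := fun u => by
    have h2 := tr_dot (g : (Fin n → ℂ) ≃ₗ[ℂ] (Fin n → ℂ)) l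
      ((g : (Fin n → ℂ) ≃ₗ[ℂ] (Fin n → ℂ)).symm u)
    rw [hl', zero_dotProduct, LinearEquiv.apply_symm_apply] at h2
    exact h2.symm
  exact dotProduct_eq_zero _ h1

end avg

end Pool.Agent.H899.RA
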