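import Pool.Agent.H899.RA.Core

/-!
# The relative cone conjecture, Eisenstein integers
-/

set_option autoImplicit false

namespace Pool.Agent.H899.RA

open Pool.Agent.H899.ER (NR nefCone coef form HasDomain IsAutGroup Stable incl incl_isExt restr
  rg rg_pres rg_finite up coef_up)
open Pool.Agent.R895 (Lat kap)
open Pool.Agent.T6.H34.EK (PresLat grp)
open Pool.Agent.Y167.CC (LinGrp)

theorem last (p r : ℕ) (hr : 1 ≤ r) (h6 : r ≤ 6)
    (G : Subgroup ((Fin (p + r) → ℂ) ≃ₗ[ℂ] (Fin (p + r) → ℂ))) (hfin : Finite G)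
    (hG : PresLat G) (hS : Stable G (incl p r)) :
    (∀ x : NR (grp G hG) (incl p r), x ∈ nefCone (grp G hG) (incl p r) ↔
      0 ≤ coef x ∧ ∀ v, Lat v → v ≠ 0 → kap * coef x ≤ (form x v v).re) ∧
    ∀ 𝒢 : LinGrp (NR (grp G hG) (incl p r)), IsAutGroup 𝒢 → HasDomain 𝒢 := by
  have hne : Nonempty (Fin (p + r)) := ⟨⟨0, by omega⟩⟩
  have hρ : Function.Injective (Fin.natAdd p : Fin r → Fin (p + r)) := Fin.natAdd_injective r p
  have hj := incl_isExt p r
  have hR := restr hS (hj.inj hρ)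
  have hK := rg_pres (G := G) hG hj hρ
  have hfin' : Finite (rg G (incl p r)) := rg_finite (hj.inj hρ)
  have hft : Fintype G := Fintype.ofFinite G
  have hft' : Fintype (rg G (incl p r)) := Fintype.ofFinite _
  have hok := okR hr h6
  refine ⟨fun x => ?_, fun 𝒢 h𝒢 => core hok (by omega) hG hK hR hj hρ 𝒢 h𝒢⟩
  have hk := Pool.Agent.R895.kap_pos
  have hre : ∀ v : Fin r → ℂ, (Pool.Agent.R895.frm (up x) v v).re = (form x v v).re / kap :=
    fun v => Pool.Agent.R895.re_kap_div _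
  rw [nefCone_eq hok hK hR hj hρ]
  constructor
  · rintro ⟨-, h2, h3⟩
    refine ⟨h2, fun v hv hv0 => ?_⟩
    have h4 := h3 v hv hv0
    rw [hre, coef_up, le_div_iff₀ hk] at h4
    rwa [mul_comm]
  · rintro ⟨h2, h3⟩
    have h4 : ∀ v, Lat v → v ≠ 0 → coef x ≤ (Pool.Agent.R895.frm (up x) v v).re := by
      intro v hv hv0
      rw [hre, le_div_iff₀ hk, mul_comm]
      exact h3 v hv hv0
    refine ⟨Pool.Agent.R895.frm_psd (up x) fun v hv => ?_, h2, h4⟩
    by_cases hv0 : v = 0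
    · rw [hre, hv0]
      have h5 : form x (0 : Fin r → ℂ) 0 = 0 :=
        Pool.Agent.W594.SYZ2.TQ.h_zero_left (Pool.Agent.R895.form_herm (up x)) 0
      rw [h5, Complex.zero_re, zero_div]
    · exact h2.trans (h4 v hv hv0)

end Pool.Agent.H899.RA
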